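import Pool.Agent.N600.L3.Stm

/-!
# Project L3 (helper600), task MAH (helper136): the conjugates of an algebraic integer
-/

set_option autoImplicit false

namespace Pool.Agent.N136.L3

open Pool.Agent.N600.L3 Pool.Agent.W963.GE Polynomial

theorem t_mah : S_MAH := by
  classical
  intro y hy
  let e : Fin (outer y).card ≃ ↥(outer y) := (outer y).equivFin.symm
  refine ⟨(outer y).card, fun i => ((e i : ↥(outer y)) : ℂ), ?_, ?_, ?_, ?_⟩
  · exact Subtype.val_injective.comp e.injective
  · intro i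
    exact ((mem_outer y hy (e i)).1 (e i).2).2
  · intro m c hc j
    have h1 : aeval y (∑ i : Fin m, C (c i) * X ^ (i : ℕ) : ℤ[X]) = 0 := by
      rw [map_sum, ← hc]
      refine Finset.sum_congr rfl fun i _ => ?_
      simp
    have h2 : minpoly ℤ y ∣ (∑ i : Fin m, C (c i) * X ^ (i : ℕ) : ℤ[X]) :=
      minpoly.isIntegrallyClosed_dvd hy h1
    obtain ⟨q, hq⟩ := h2
    have h3 : aeval ((e j : ↥(outer y)) : ℂ) (∑ i : Fin m, C (c i) * X ^ (i : ℕ) : ℤ[X]) = 0 := by
      rw [hq, map_mul, ((mem_outer y hy (e j)).1 (e j).2).1, zero_mul]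
    rw [map_sum] at h3
    rw [← h3]
    refine Finset.sum_congr rfl fun i _ => ?_
    simp
  · have hM : M2 (fun i => ((e i : ↥(outer y)) : ℂ)) = MM y ^ 2 := by
      unfold M2
      rw [Finset.prod_pow, MM_eq y hy]
      congr 1
      rw [← Finset.prod_coe_sort (outer y) (fun a => ‖a‖)]
      exact Fintype.prod_equiv e _ _ (fun i => rfl)
    exact hM.ge

end Pool.Agent.N136.L3
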